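import Mathlib

/-!
# A generic colouring of a transitive relation with countably many colours

`R x y k`: the pair `(x, y)` is related and has the colour `k`.  The relation is transitive, there
is no triangle `x, y, z` with three equal colours, and everything else happens: if `(x, z)` has the
colour `k` and `i, j` are not both equal to `k`, then there is `y` such that `(x, y)`, `(y, z)` have
the colours `i`, `j`.
-/

set_option autoImplicit false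

namespace Pool.Agent.Q216.IS

/-- The conditions on a finite or infinite coloured relation. -/
structure Good (R : ℕ → ℕ → ℕ → Prop) : Prop where
  fn : ∀ x y k l, R x y k → R x y l → k = l
  tr : ∀ x y z k l, R x y k → R y z l → ∃ m, R x z m
  nm : ∀ x y z k, R x y k → R y z k → ¬ R x z k

/-- All entries are smaller than `N`. -/
def Bdd (R : ℕ → ℕ → ℕ → Prop) (N : ℕ) : Prop := ∀ x y k, R x y k → x < N ∧ y < N ∧ k < N

theorem Good.irr {R : ℕ → ℕ → ℕ → Prop} (h : Good R) (x k : ℕ) : ¬ R x x k :=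
  fun h1 => h.nm x x x k h1 h1 h1

/-- The finite coloured relations. -/
abbrev Net : Type := {R : ℕ → ℕ → ℕ → Prop // Good R ∧ ∃ N, Bdd R N}

/-- Insert a new point `y` between `x` and `z`. -/
def insertPt (R : ℕ → ℕ → ℕ → Prop) (x z y i j : ℕ) : ℕ → ℕ → ℕ → Prop := fun a b k =>
  R a b k ∨ (a = x ∧ b = y ∧ k = i) ∨ (a = y ∧ b = z ∧ k = j) ∨
    (b = y ∧ (∃ l, R a x l) ∧ k = y + 2 * a) ∨ (a = y ∧ (∃ l, R z b l) ∧ k = y + 2 * b + 1)

theorem insert_good {R : ℕ → ℕ → ℕ → Prop} (h : Good R) {N : ℕ} (hN : Bdd R N) {x z k i j : ℕ}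
    (hxz : R x z k) (hij : ¬ (i = k ∧ j = k)) {y : ℕ} (hy : N ≤ y) (hi : i < y) (hj : j < y) :
    Good (insertPt R x z y i j) := by
  have f1 : ∀ a b l, R a b l → a < y ∧ b < y ∧ l < y := fun a b l h1 => by
    have := hN a b l h1
    omega
  have hx := (f1 _ _ _ hxz).1
  have hz := (f1 _ _ _ hxz).2.1
  have n1 : ∀ b l, ¬ R y b l := fun b l h1 => by have := f1 _ _ _ h1; omega
  have n2 : ∀ a l, ¬ R a y l := fun a l h1 => by have := f1 _ _ _ h1; omega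
  have hxx := h.irr x
  have hzz := h.irr z
  constructor
  · -- functional
    intro a b p q h1 h2
    rcases h1 with h1 | ⟨ha, hb, hp⟩ | ⟨ha, hb, hp⟩ | ⟨hb, ⟨l, hl⟩, hp⟩ | ⟨ha, ⟨l, hl⟩, hp⟩ <;>
    rcases h2 with h2 | ⟨ha', hb', hq⟩ | ⟨ha', hb', hq⟩ | ⟨hb', ⟨l', hl'⟩, hq⟩ | ⟨ha', ⟨l', hl'⟩, hq⟩
    · exact h.fn a b p q h1 h2
    · exact absurd (hb' ▸ h1) (n2 _ _)
    · exact absurd (ha' ▸ h1) (n1 _ _)
    · exact absurd (hb' ▸ h1) (n2 _ _)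
    · exact absurd (ha' ▸ h1) (n1 _ _)
    · exact absurd (hb ▸ h2) (n2 _ _)
    · rw [hp, hq]
    · omega
    · exact absurd (ha ▸ hl') (hxx _)
    · have := f1 _ _ _ hl'; omega
    · exact absurd (ha ▸ h2) (n1 _ _)
    · omega
    · rw [hp, hq]
    · have := f1 _ _ _ hl'; omega
    · exact absurd (hb ▸ hl') (hzz _)
    · exact absurd (hb ▸ h2) (n2 _ _)
    · exact absurd (ha' ▸ hl) (hxx _)
    · have := f1 _ _ _ hl; omega
    · omega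
    · have := f1 _ _ _ hl; omega
    · exact absurd (ha ▸ h2) (n1 _ _)
    · have := f1 _ _ _ hl; omega
    · exact absurd (hb' ▸ hl) (hzz _)
    · have := f1 _ _ _ hl; omega
    · omega
  · -- transitive
    intro a b c p q h1 h2
    rcases h1 with h1 | ⟨ha, hb, hp⟩ | ⟨ha, hb, hp⟩ | ⟨hb, ⟨l, hl⟩, hp⟩ | ⟨ha, ⟨l, hl⟩, hp⟩ <;>
    rcases h2 with h2 | ⟨hb', hc, hq⟩ | ⟨hb', hc, hq⟩ | ⟨hc, ⟨l', hl'⟩, hq⟩ | ⟨hb', ⟨l', hl'⟩, hq⟩
    · obtain ⟨m, hm⟩ := h.tr _ _ _ _ _ h1 h2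
      exact ⟨m, Or.inl hm⟩
    · subst hb' hc
      exact ⟨_, Or.inr (Or.inr (Or.inr (Or.inl ⟨rfl, ⟨_, h1⟩, rfl⟩)))⟩
    · exact absurd (hb' ▸ h1) (n2 _ _)
    · subst hc
      obtain ⟨m, hm⟩ := h.tr _ _ _ _ _ h1 hl'
      exact ⟨_, Or.inr (Or.inr (Or.inr (Or.inl ⟨rfl, ⟨_, hm⟩, rfl⟩)))⟩
    · exact absurd (hb' ▸ h1) (n2 _ _)
    · exact absurd (hb ▸ h2) (n1 _ _)
    · omega
    · subst ha hc
      exact ⟨k, Or.inl hxz⟩
    · subst hb
      exact absurd hl' (n1 _ _)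
    · subst ha
      obtain ⟨m, hm⟩ := h.tr _ _ _ _ _ hxz hl'
      exact ⟨m, Or.inl hm⟩
    · subst ha hb
      exact ⟨_, Or.inr (Or.inr (Or.inr (Or.inr ⟨rfl, ⟨_, h2⟩, rfl⟩)))⟩
    · subst hb hb'
      exact absurd hxz (hzz _)
    · omega
    · subst hb
      obtain ⟨m, hm⟩ := h.tr _ _ _ _ _ hxz hl'
      exact absurd hm (hxx _)
    · omega
    · exact absurd (hb ▸ h2) (n1 _ _)
    · omega
    · subst hc
      obtain ⟨m, hm⟩ := h.tr _ _ _ _ _ hl hxz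
      exact ⟨m, Or.inl hm⟩
    · subst hb
      exact absurd hl' (n1 _ _)
    · obtain ⟨m, hm⟩ := h.tr _ _ _ _ _ hl hxz
      obtain ⟨m', hm'⟩ := h.tr _ _ _ _ _ hm hl'
      exact ⟨m', Or.inl hm'⟩
    · subst ha
      obtain ⟨m, hm⟩ := h.tr _ _ _ _ _ hl h2
      exact ⟨_, Or.inr (Or.inr (Or.inr (Or.inr ⟨rfl, ⟨_, hm⟩, rfl⟩)))⟩
    · subst hb'
      obtain ⟨m, hm⟩ := h.tr _ _ _ _ _ hxz hl
      exact absurd hm (hxx _)
    · subst hb'
      exact absurd hl (n2 _ _)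
    · obtain ⟨m, hm⟩ := h.tr _ _ _ _ _ hl hl'
      obtain ⟨m', hm'⟩ := h.tr _ _ _ _ _ hm hxz
      exact absurd hm' (hzz _)
    · subst hb'
      exact absurd hl (n2 _ _)
  · -- no monochromatic triangle
    intro a b c p h1 h2 h3
    rcases h1 with h1 | ⟨ha, hb, hp⟩ | ⟨ha, hb, hp⟩ | ⟨hb, ⟨l, hl⟩, hp⟩ | ⟨ha, ⟨l, hl⟩, hp⟩
    · have b1 := f1 _ _ _ h1
      rcases h2 with h2 | ⟨hb', hc, hq⟩ | ⟨hb', hc, hq⟩ | ⟨hc, ⟨l', hl'⟩, hq⟩ | ⟨hb', ⟨l', hl'⟩, hq⟩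
      · have b2 := f1 _ _ _ h2
        rcases h3 with h3 | ⟨ha'', hc'', hr⟩ | ⟨ha'', hc'', hr⟩ | ⟨hc'', _, hr⟩ | ⟨ha'', _, hr⟩
        · exact h.nm _ _ _ _ h1 h2 h3
        all_goals omega
      · subst hb'
        rcases h3 with h3 | ⟨ha'', hc'', hr⟩ | ⟨ha'', hc'', hr⟩ | ⟨hc'', _, hr⟩ | ⟨ha'', _, hr⟩
        · exact absurd (hc ▸ h3) (n2 _ _)
        · subst ha''
          exact hxx _ h1
        all_goals omega
      · omega
      · omega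
      · omega
    · have hne : ¬ R b c p := fun h4 => n1 _ _ (hb ▸ h4)
      rcases h2 with h2 | ⟨hb', hc, hq⟩ | ⟨hb', hc, hq⟩ | ⟨hc, ⟨l', hl'⟩, hq⟩ | ⟨hb', ⟨l', hl'⟩, hq⟩
      · exact hne h2
      · omega
      · subst ha hc
        rcases h3 with h3 | ⟨ha'', hc'', hr⟩ | ⟨ha'', hc'', hr⟩ | ⟨hc'', _, hr⟩ | ⟨ha'', _, hr⟩
        · have := h.fn _ _ _ _ hxz h3
          omega
        all_goals omega
      · subst hb
        exact n1 _ _ hl'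
      · omega
    · rcases h2 with h2 | ⟨hb', hc, hq⟩ | ⟨hb', hc, hq⟩ | ⟨hc, ⟨l', hl'⟩, hq⟩ | ⟨hb', ⟨l', hl'⟩, hq⟩
      · subst ha hb
        have b2 := f1 _ _ _ h2
        rcases h3 with h3 | ⟨ha'', hc'', hr⟩ | ⟨ha'', hc'', hr⟩ | ⟨hc'', _, hr⟩ | ⟨ha'', _, hr⟩
        · exact n1 _ _ h3
        · omega
        · subst hc''
          exact hzz _ h2
        all_goals omega
      · subst hb hb'
        exact hzz _ hxz
      · omega
      · omega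
      · omega
    · rcases h2 with h2 | ⟨hb', hc, hq⟩ | ⟨hb', hc, hq⟩ | ⟨hc, ⟨l', hl'⟩, hq⟩ | ⟨hb', ⟨l', hl'⟩, hq⟩
      · exact n1 _ _ (hb ▸ h2)
      · omega
      · omega
      · subst hb
        exact n1 _ _ hl'
      · omega
    · have b2 := f1 _ _ _ hl
      rcases h2 with h2 | ⟨hb', hc, hq⟩ | ⟨hb', hc, hq⟩ | ⟨hc, ⟨l', hl'⟩, hq⟩ | ⟨hb', ⟨l', hl'⟩, hq⟩
      · have b3 := f1 _ _ _ h2
        rcases h3 with h3 | ⟨ha'', hc'', hr⟩ | ⟨ha'', hc'', hr⟩ | ⟨hc'', _, hr⟩ | ⟨ha'', _, hr⟩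
        · exact n1 _ _ (ha ▸ h3)
        · omega
        · omega
        · omega
        · have hbc : b = c := by omega
          subst hbc
          exact h.irr _ _ h2
      all_goals omega

theorem insert_bdd {R : ℕ → ℕ → ℕ → Prop} {N : ℕ} (hN : Bdd R N) {x z y i j : ℕ} {k : ℕ}
    (hxz : R x z k) (hy : N ≤ y) (hi : i < y) (hj : j < y) :
    Bdd (insertPt R x z y i j) (4 * y + 4) := by
  have b0 := hN _ _ _ hxz
  intro a b l h1
  rcases h1 with h1 | ⟨ha, hb, hp⟩ | ⟨ha, hb, hp⟩ | ⟨hb, ⟨l, hl⟩, hp⟩ | ⟨ha, ⟨l, hl⟩, hp⟩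
  · have := hN _ _ _ h1
    omega
  · omega
  · omega
  · have := hN _ _ _ hl
    omega
  · have := hN _ _ _ hl
    omega

/-- The networks which contain a witness for `(x, z, k, i, j)`, or which are incompatible with
`(x, z)` having the colour `k`. -/
def dense (q : ℕ × ℕ × ℕ × ℕ × ℕ) : Order.Cofinal Net where
  carrier := {g | (q.2.2.2.1 = q.2.2.1 ∧ q.2.2.2.2 = q.2.2.1) ∨
    (∀ g' : Net, g ≤ g' → ¬ g'.1 q.1 q.2.1 q.2.2.1) ∨
      ∃ y, g.1 q.1 y q.2.2.2.1 ∧ g.1 y q.2.1 q.2.2.2.2}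
  isCofinal := by
    rintro ⟨R, hR, N, hN⟩
    obtain ⟨x, z, k, i, j⟩ := q
    by_cases hij : i = k ∧ j = k
    · exact ⟨_, Or.inl hij, le_rfl⟩
    by_cases h1 : ∀ g' : Net, (⟨R, hR, N, hN⟩ : Net) ≤ g' → ¬ g'.1 x z k
    · exact ⟨_, Or.inr (Or.inl h1), le_rfl⟩
    push Not at h1
    obtain ⟨⟨R', hR', N', hN'⟩, hle, hxz⟩ := h1
    let y := N' + i + j + 1
    have g1 := insert_good hR' hN' hxz hij (y := y) (by omega) (by omega) (by omega)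
    have g2 := insert_bdd hN' (i := i) (j := j) (y := y) hxz (by omega) (by omega) (by omega)
    refine ⟨⟨insertPt R' x z y i j, g1, _, g2⟩, Or.inr (Or.inr ⟨y, ?_, ?_⟩), hle.trans ?_⟩
    · exact Or.inr (Or.inl ⟨rfl, rfl, rfl⟩)
    · exact Or.inr (Or.inr (Or.inl ⟨rfl, rfl, rfl⟩))
    · intro a b l h2
      exact Or.inl h2

/-- The starting network: the pair `(0, 1)` has the colour `0`. -/
def start : Net := ⟨fun a b k => a = 0 ∧ b = 1 ∧ k = 0, ⟨by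
  intro x y k l h1 h2
  omega, by
  intro x y z k l h1 h2
  omega, by
  intro x y z k h1 h2 h3
  omega⟩, 2, by
  intro x y k h1
  omega⟩

/-- The generic ideal. -/
noncomputable def G : Order.Ideal Net := Order.idealOfCofinals start dense

/-- The generic coloured relation. -/
def Rel (x y k : ℕ) : Prop := ∃ g ∈ G, g.1 x y k

theorem common {g g' : Net} (h : g ∈ G) (h' : g' ∈ G) : ∃ g'' ∈ G, g ≤ g'' ∧ g' ≤ g'' :=
  G.directed g h g' h'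

theorem rel_good : Good Rel where
  fn := by
    rintro x y k l ⟨g, hg, h1⟩ ⟨g', hg', h2⟩
    obtain ⟨g'', -, h3, h4⟩ := common hg hg'
    exact g''.2.1.fn x y k l (h3 _ _ _ h1) (h4 _ _ _ h2)
  tr := by
    rintro x y z k l ⟨g, hg, h1⟩ ⟨g', hg', h2⟩
    obtain ⟨g'', h5, h3, h4⟩ := common hg hg'
    obtain ⟨m, hm⟩ := g''.2.1.tr x y z k l (h3 _ _ _ h1) (h4 _ _ _ h2)
    exact ⟨m, g'', h5, hm⟩
  nm := by
    rintro x y z k ⟨g, hg, h1⟩ ⟨g', hg', h2⟩ ⟨g₁, hg₁, h6⟩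
    obtain ⟨g'', h5, h3, h4⟩ := common hg hg'
    obtain ⟨g₂, h7, h8, h9⟩ := common h5 hg₁
    exact g₂.2.1.nm x y z k (h8 _ _ _ (h3 _ _ _ h1)) (h8 _ _ _ (h4 _ _ _ h2)) (h9 _ _ _ h6)

theorem rel_witness {x z k i j : ℕ} (h : Rel x z k) (hij : ¬ (i = k ∧ j = k)) :
    ∃ y, Rel x y i ∧ Rel y z j := by
  obtain ⟨g, hg, h1⟩ := h
  obtain ⟨g', h2, h3⟩ := Order.cofinal_meets_idealOfCofinals start dense (x, z, k, i, j)
  rcases h2 with h2 | h2 | ⟨y, h4, h5⟩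
  · exact absurd h2 hij
  · obtain ⟨g'', h5, h6, h7⟩ := common hg h3
    exact absurd (h6 _ _ _ h1) (h2 g'' h7)
  · exact ⟨y, ⟨g', h3, h4⟩, ⟨g', h3, h5⟩⟩

theorem rel_start : Rel 0 1 0 := ⟨start, Order.mem_idealOfCofinals start dense, rfl, rfl, rfl⟩

theorem rel_colour (i : ℕ) : ∃ x y, Rel x y i := by
  obtain ⟨y, h1, -⟩ := rel_witness (i := i) (j := i + 1) rel_start (by omega)
  exact ⟨0, y, h1⟩

end Pool.Agent.Q216.IS
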